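import Mathlib
import Pool.Agent.U591.AM.Stm

/-!
# Project AM, package D: the canonical form of a configuration without 3142 with a marked pair
-/

set_option autoImplicit false

namespace Pool.Agent.U261.AM.D

open Pool.Agent.U591.AM Relation

/-- connectedness: a property which holds somewhere and fails somewhere changes along an edge -/
theorem cross {T : Type} (r : T → T → Prop) (hr : ∀ u w, r u w → r w u) (Q : T → Prop) (c : T)
    (p : T → Prop) {u w : T} (hu : ReflTransGen (fun u w => r u w ∧ Q w) c u)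
    (hw : ReflTransGen (fun u w => r u w ∧ Q w) c w) (pu : p u) (pw : ¬ p w) :
    ∃ d e, ReflTransGen (fun u w => r u w ∧ Q w) c d ∧ ReflTransGen (fun u w => r u w ∧ Q w) c e ∧
      r d e ∧ p d ∧ ¬ p e := by
  by_contra hno
  push Not at hno
  have key : ∀ v, ReflTransGen (fun u w => r u w ∧ Q w) c v → (p v ↔ p c) := by
    intro v hv
    induction hv with
    | refl => exact Iff.rfl
    | tail hb hbc ih =>
      rename_i b d
      rw [← ih]
      have hd : ReflTransGen (fun u w => r u w ∧ Q w) c d := hb.tail hbc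
      constructor
      · intro h; exact hno d b hd hb (hr _ _ hbc.1) h
      · intro h; exact hno b d hb hd hbc.1 h
  exact pw ((key w hw).2 ((key u hu).1 pu))

section

variable {T : Type} (x y : T → ℚ)

/-- the inversion graph -/
def Inv (u w : T) : Prop := (x u < x w ∧ y w < y u) ∨ (x w < x u ∧ y u < y w)

theorem Inv.symm' {u w : T} (h : Inv x y u w) : Inv x y w u := by
  rcases h with h | h
  · exact Or.inr h
  · exact Or.inl h

/-- the component of `c` among the points with `Q` -/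
def Cmp (Q : T → Prop) (c v : T) : Prop := ReflTransGen (fun u w => Inv x y u w ∧ Q w) c v

/-- a point with `Q` outside of the component is lower left or upper right of all of it -/
theorem cmp_out (ix : ∀ u v, x u = x v → u = v) (iy : ∀ u v, y u = y v → u = v)
    (Q : T → Prop) (c v : T) (hQ : Q v) (hv : ¬ Cmp x y Q c v) :
    (∀ w, Cmp x y Q c w → x v < x w ∧ y v < y w) ∨ (∀ w, Cmp x y Q c w → x w < x v ∧ y w < y v) := by
  have hcmp : ∀ w, Cmp x y Q c w → (x v < x w ∧ y v < y w) ∨ (x w < x v ∧ y w < y v) := by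
    intro w hw
    have hne : w ≠ v := by rintro rfl; exact hv hw
    have hni : ¬ Inv x y w v := fun hi => hv (ReflTransGen.tail hw ⟨hi, hQ⟩)
    have h1 : x w ≠ x v := fun h => hne (ix _ _ h)
    have h2 : y w ≠ y v := fun h => hne (iy _ _ h)
    unfold Inv at hni
    push Not at hni
    rcases lt_or_gt_of_ne h1 with h1 | h1
    · right
      exact ⟨h1, lt_of_le_of_ne (hni.1 h1) h2⟩
    · left
      exact ⟨h1, lt_of_le_of_ne (hni.2 h1) (Ne.symm h2)⟩
  by_contra hno
  push Not at hno
  obtain ⟨⟨u, hu, hu'⟩, ⟨w, hw, hw'⟩⟩ := hno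
  have hpu : ¬ (x v < x u ∧ y v < y u) := fun h => absurd (hu' h.1) (not_le.2 h.2)
  have hpw : (x v < x w ∧ y v < y w) := by
    rcases hcmp w hw with h | h
    · exact h
    · exact absurd (hw' h.1) (not_le.2 h.2)
  obtain ⟨d, e, hd, he, hde, pd, pe⟩ := cross (Inv x y) (fun _ _ h => h.symm') Q c
    (fun w => x v < x w ∧ y v < y w) hw hu hpw hpu
  have he' : x e < x v ∧ y e < y v := (hcmp e he).resolve_left pe
  rcases hde with h | h
  · have := h.1; linarith [he'.1, pd.1]
  · have := h.2; linarith [he'.2, pd.2]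

/-- the specification of the classes -/
def Spec (C A : T → Prop) (a : T) : K → T → Prop
  | .C, v => C v
  | .A, v => A v
  | .RT, v => ∀ w, C w → x w < x v ∧ y w < y v
  | .LT, v => (∀ w, C w → y w < y v) ∧ ∀ w, A w → x v < x w
  | .AT, v => (∀ w, C w → y w < y v) ∧ x v < x a ∧ ∃ w, A w ∧ x w < x v
  | .M, v => (∀ w, C w → x v < x w ∧ y v < y w) ∧ ∀ w, A w → x w < x v ∧ y w < y v
  | .LB, v => (∀ w, C w → x v < x w ∧ y v < y w) ∧ ∀ w, A w → x v < x w ∧ y v < y w
  | .RB, v => (∀ w, C w → x w < x v ∧ y v < y w) ∧ ∀ w, A w → y v < y w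
  | .CB, v => (∃ w, C w ∧ x w < x v) ∧ (∃ w, C w ∧ x v < x w) ∧ (∀ w, C w → y v < y w) ∧
      ∀ w, A w → y v < y w

/-- the canonical form on one side -/
theorem one (a c : T) (hxac : x a < x c) (hyac : y a < y c)
    (ix : ∀ u v, x u = x v → u = v) (iy : ∀ u v, y u = y v → u = v)
    (av : ∀ i j p q, ¬ pat x y i j p q) :
    ∃ k : T → K, k a = .A ∧ k c = .C ∧ V (fun _ _ => True) k x y := by
  classical
  -- the two components
  let Q : T → Prop := fun v => x a < x v ∧ y a < y v
  let C : T → Prop := Cmp x y Q c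
  let W : T → Prop := fun v => ∀ w, C w → x v < x w ∧ y v < y w
  let A : T → Prop := Cmp x y W a
  have hCc : C c := ReflTransGen.refl
  have hAa : A a := ReflTransGen.refl
  have hCQ : ∀ v, C v → Q v := by
    intro v hv
    rcases ReflTransGen.cases_tail hv with h | ⟨b, _, h⟩
    · rw [h]; exact ⟨hxac, hyac⟩
    · exact h.2
  have hWa : W a := fun w hw => hCQ w hw
  have hAW : ∀ v, A v → W v := by
    intro v hv
    rcases ReflTransGen.cases_tail hv with h | ⟨b, _, h⟩
    · rw [h]; exact hWa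
    · exact h.2
  have hAC : ∀ u v, A u → C v → x u < x v ∧ y u < y v := fun u v hu hv => hAW u hu v hv
  have hnAC : ∀ v, A v → ¬ C v := fun v h1 h2 => absurd (hAC v v h1 h2).1 (lt_irrefl _)
  -- (F1)
  have hF1 : ∀ v, ¬ C v → (∀ w, C w → y v < y w) ∨ (∀ w, C w → y w < y v) := by
    intro v hv
    by_contra hno
    push Not at hno
    obtain ⟨⟨e, he, he'⟩, ⟨d, hd, hd'⟩⟩ := hno
    have hne : y e ≠ y v := fun h => hv (by rw [← iy _ _ h]; exact he)
    have hnd : y v ≠ y d := fun h => hv (by rw [iy _ _ h]; exact hd)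
    have he'' : y e < y v := lt_of_le_of_ne he' hne
    have hd'' : y v < y d := lt_of_le_of_ne hd' hnd
    by_cases hxv : x a < x v
    · have hQv : Q v := ⟨hxv, lt_trans (hCQ e he).2 he''⟩
      rcases cmp_out x y ix iy Q c v hQv hv with h | h
      · linarith [(h e he).2]
      · linarith [(h d hd).2]
    · have hva : v ≠ a := by
        rintro rfl
        linarith [(hCQ e he).2]
      have hxv' : x v < x a := lt_of_le_of_ne (not_lt.1 hxv) (fun h => hva (ix _ _ h))
      obtain ⟨d1, e1, hd1, he1, hde, pd, pe⟩ := cross (Inv x y) (fun _ _ h => h.symm') Q c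
        (fun w => y v < y w) hd he hd'' (not_lt.2 he''.le)
      have hne1 : y e1 ≠ y v := fun h => hv (by rw [← iy _ _ h]; exact he1)
      have pe' : y e1 < y v := lt_of_le_of_ne (not_lt.1 pe) hne1
      have hx1 : x d1 < x e1 := by
        rcases hde with h | h
        · exact h.1
        · linarith [h.2]
      exact av v a d1 e1 ⟨hxv', (hCQ d1 hd1).1, hx1, (hCQ e1 he1).2, pe', pd⟩
  -- the points below `C` which are right of some point of `C` are below all of `A`
  have hF3 : ∀ v, ¬ A v → y v < y a → ∀ d0, C d0 → x d0 < x v → ∀ w, A w → y v < y w := by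
    intro v hv hya d0 hd0 hx0 w hw
    by_contra hno
    have hne : y w ≠ y v := fun h => hv (by rw [← iy _ _ h]; exact hw)
    have hno' : ¬ y v < y w := hno
    obtain ⟨d, e, hd, he, hde, pd, pe⟩ := cross (Inv x y) (fun _ _ h => h.symm') W a
      (fun w => y v < y w) hAa hw hya hno'
    have hne1 : y e ≠ y v := fun h => hv (by rw [← iy _ _ h]; exact he)
    have pe' : y e < y v := lt_of_le_of_ne (not_lt.1 pe) hne1
    have hx1 : x d < x e := by
      rcases hde with h | h
      · exact h.1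
      · linarith [h.2]
    exact av d e d0 v ⟨hx1, (hAC e d0 he hd0).1, hx0, pe', pd, (hAC d d0 hd hd0).2⟩
  -- existence of the classes
  have hex : ∀ v, ∃ κ : K, Spec x y C A a κ v ∧ (C v → κ = .C) ∧ (A v → κ = .A) := by
    intro v
    by_cases hCv : C v
    · exact ⟨.C, hCv, fun _ => rfl, fun h => absurd hCv (hnAC v h)⟩
    by_cases hAv : A v
    · exact ⟨.A, hAv, fun h => absurd h hCv, fun _ => rfl⟩
    have hca : ∀ κ : K, (C v → κ = .C) ∧ (A v → κ = .A) := fun κ =>
      ⟨fun h => absurd h hCv, fun h => absurd h hAv⟩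
    have hva : v ≠ a := by rintro rfl; exact hAv hAa
    rcases hF1 v hCv with hb | ht
    · -- below
      by_cases hl : ∀ w, C w → x v < x w
      · have hWv : W v := fun w hw => ⟨hl w hw, hb w hw⟩
        rcases cmp_out x y ix iy W a v hWv hAv with h | h
        · exact ⟨.LB, ⟨hWv, h⟩, hca _⟩
        · exact ⟨.M, ⟨hWv, h⟩, hca _⟩
      · push Not at hl
        obtain ⟨d0, hd0, hd0'⟩ := hl
        have hne0 : x d0 ≠ x v := fun h => hCv (by rw [← ix _ _ h]; exact hd0)
        have hx0 : x d0 < x v := lt_of_le_of_ne hd0' hne0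
        have hxa : x a < x v := lt_trans (hCQ d0 hd0).1 hx0
        -- below `a`
        have hya : y v < y a := by
          by_contra hno
          have : y a < y v := lt_of_le_of_ne (not_lt.1 hno) (fun h => hva (iy _ _ h).symm)
          rcases cmp_out x y ix iy Q c v ⟨hxa, this⟩ hCv with h | h
          · linarith [(h d0 hd0).1]
          · linarith [(h d0 hd0).2, hb d0 hd0]
        have hbA := hF3 v hAv hya d0 hd0 hx0
        by_cases hr : ∀ w, C w → x w < x v
        · exact ⟨.RB, ⟨fun w hw => ⟨hr w hw, hb w hw⟩, hbA⟩, hca _⟩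
        · push Not at hr
          obtain ⟨e0, he0, he0'⟩ := hr
          have hne1 : x v ≠ x e0 := fun h => hCv (by rw [ix _ _ h]; exact he0)
          exact ⟨.CB, ⟨⟨d0, hd0, hx0⟩, ⟨e0, he0, lt_of_le_of_ne he0' hne1⟩, hb, hbA⟩, hca _⟩
    · -- above
      by_cases hr : ∀ w, C w → x w < x v
      · exact ⟨.RT, fun w hw => ⟨hr w hw, ht w hw⟩, hca _⟩
      · by_cases hl : ∀ w, A w → x v < x w
        · exact ⟨.LT, ⟨ht, hl⟩, hca _⟩
        · have hxa : x v < x a := by
            by_contra hno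
            have h1 : x a < x v := lt_of_le_of_ne (not_lt.1 hno) (fun h => hva (ix _ _ h).symm)
            have h2 : y a < y v := lt_trans hyac (ht c hCc)
            rcases cmp_out x y ix iy Q c v ⟨h1, h2⟩ hCv with h | h
            · linarith [(h c hCc).2, ht c hCc]
            · exact hr fun w hw => (h w hw).1
          push Not at hl
          obtain ⟨w, hw, hw'⟩ := hl
          have hne : x w ≠ x v := fun h => hAv (by rw [← ix _ _ h]; exact hw)
          exact ⟨.AT, ⟨ht, hxa, w, hw, lt_of_le_of_ne hw' hne⟩, hca _⟩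
  choose k hk hkC hkA using hex
  refine ⟨k, hkA a hAa, hkC c hCc, ?_⟩
  -- unpacking the specification
  have sC : ∀ v, k v = .C → C v := fun v h => by have := hk v; rw [h] at this; exact this
  have sA : ∀ v, k v = .A → A v := fun v h => by have := hk v; rw [h] at this; exact this
  have sRT : ∀ v, k v = .RT → ∀ w, C w → x w < x v ∧ y w < y v := fun v h => by
    have := hk v; rw [h] at this; exact this
  have sLT : ∀ v, k v = .LT → (∀ w, C w → y w < y v) ∧ ∀ w, A w → x v < x w := fun v h => by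
    have := hk v; rw [h] at this; exact this
  have sAT : ∀ v, k v = .AT → (∀ w, C w → y w < y v) ∧ x v < x a ∧ ∃ w, A w ∧ x w < x v :=
    fun v h => by have := hk v; rw [h] at this; exact this
  have sM : ∀ v, k v = .M → (∀ w, C w → x v < x w ∧ y v < y w) ∧ ∀ w, A w → x w < x v ∧ y w < y v :=
    fun v h => by have := hk v; rw [h] at this; exact this
  have sLB : ∀ v, k v = .LB → (∀ w, C w → x v < x w ∧ y v < y w) ∧ ∀ w, A w → x v < x w ∧ y v < y w :=
    fun v h => by have := hk v; rw [h] at this; exact this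
  have sRB : ∀ v, k v = .RB → (∀ w, C w → x w < x v ∧ y v < y w) ∧ ∀ w, A w → y v < y w :=
    fun v h => by have := hk v; rw [h] at this; exact this
  have sCB : ∀ v, k v = .CB → (∃ w, C w ∧ x w < x v) ∧ (∃ w, C w ∧ x v < x w) ∧
      (∀ w, C w → y v < y w) ∧ ∀ w, A w → y v < y w :=
    fun v h => by have := hk v; rw [h] at this; exact this
  -- columns
  have c0 : ∀ v, colr (k v) = 0 → ∀ w, A w → x v < x w := by
    intro v h
    cases hv : k v <;> rw [hv] at h <;> simp [colr] at h
    · exact (sLT v hv).2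
    · exact fun w hw => ((sLB v hv).2 w hw).1
  have c1 : ∀ v, colr (k v) = 1 → (∃ w, A w ∧ x w ≤ x v) ∧ ∃ w, A w ∧ x v ≤ x w := by
    intro v h
    cases hv : k v <;> rw [hv] at h <;> simp [colr] at h
    · exact ⟨⟨v, sA v hv, le_rfl⟩, ⟨v, sA v hv, le_rfl⟩⟩
    · obtain ⟨_, h2, w, hw, hw'⟩ := sAT v hv
      exact ⟨⟨w, hw, hw'.le⟩, ⟨a, hAa, h2.le⟩⟩
  have c2 : ∀ v, colr (k v) = 2 → (∀ w, A w → x w < x v) ∧ ∀ w, C w → x v < x w := by
    intro v h
    cases hv : k v <;> rw [hv] at h <;> simp [colr] at h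
    exact ⟨fun w hw => ((sM v hv).2 w hw).1, fun w hw => ((sM v hv).1 w hw).1⟩
  have c3 : ∀ v, colr (k v) = 3 → (∃ w, C w ∧ x w ≤ x v) ∧ ∃ w, C w ∧ x v ≤ x w := by
    intro v h
    cases hv : k v <;> rw [hv] at h <;> simp [colr] at h
    · exact ⟨⟨v, sC v hv, le_rfl⟩, ⟨v, sC v hv, le_rfl⟩⟩
    · obtain ⟨⟨w, hw, hw'⟩, ⟨w2, hw2, hw2'⟩, _⟩ := sCB v hv
      exact ⟨⟨w, hw, hw'.le⟩, ⟨w2, hw2, hw2'.le⟩⟩
  have c4 : ∀ v, colr (k v) = 4 → ∀ w, C w → x w < x v := by
    intro v h
    cases hv : k v <;> rw [hv] at h <;> simp [colr] at h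
    · exact fun w hw => (sRT v hv w hw).1
    · exact fun w hw => ((sRB v hv).1 w hw).1
  -- rows
  have r0 : ∀ v, rowr (k v) = 0 → ∀ w, A w → y v < y w := by
    intro v h
    cases hv : k v <;> rw [hv] at h <;> simp [rowr] at h
    · exact (sCB v hv).2.2.2
    · exact fun w hw => ((sLB v hv).2 w hw).2
    · exact (sRB v hv).2
  have r1 : ∀ v, rowr (k v) = 1 → A v := by
    intro v h
    cases hv : k v <;> rw [hv] at h <;> simp [rowr] at h
    exact sA v hv
  have r2 : ∀ v, rowr (k v) = 2 → (∀ w, A w → y w < y v) ∧ ∀ w, C w → y v < y w := by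
    intro v h
    cases hv : k v <;> rw [hv] at h <;> simp [rowr] at h
    exact ⟨fun w hw => ((sM v hv).2 w hw).2, fun w hw => ((sM v hv).1 w hw).2⟩
  have r3 : ∀ v, rowr (k v) = 3 → C v := by
    intro v h
    cases hv : k v <;> rw [hv] at h <;> simp [rowr] at h
    exact sC v hv
  have r4 : ∀ v, rowr (k v) = 4 → ∀ w, C w → y w < y v := by
    intro v h
    cases hv : k v <;> rw [hv] at h <;> simp [rowr] at h
    · exact (sAT v hv).1
    · exact (sLT v hv).1
    · exact fun w hw => (sRT v hv w hw).2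
  have hcol4 : ∀ v, colr (k v) ≤ 4 := by intro v; cases k v <;> simp [colr]
  have hrow4 : ∀ v, rowr (k v) ≤ 4 := by intro v; cases k v <;> simp [rowr]
  have lt_of : ∀ (f : T → ℚ) (u v : T), (∀ u v, f u = f v → u = v) → u ≠ v → ¬ f v < f u → f u < f v := by
    intro f u v hf hne h
    exact lt_of_le_of_ne (not_lt.1 h) (fun h => hne (hf _ _ h))
  refine
    { cols := ?_, rows := ?_, av := fun i j p q _ _ _ _ _ _ => av i j p q,
      cutA := fun i j p q _ _ _ _ _ _ _ => av i j p q,
      cutC := fun i j p q _ _ _ _ _ _ _ => av i j p q,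
      sepA := ?_, sepC := ?_, z1T := ?_, z1B := ?_, z2RT := ?_, z2RB := ?_, z2LB := ?_, z2LT := ?_,
      z3 := fun i j p q _ _ _ _ _ _ _ => av i j p q,
      cutRT := fun i j p q _ _ _ _ _ _ _ => av i j p q,
      cutRB := fun i j p q _ _ _ _ _ _ _ => av i j p q,
      cutLB := fun i j p q _ _ _ _ _ _ _ => av i j p q,
      cutLT := fun i j p q _ _ _ _ _ _ _ => av i j p q,
      grpA := fun i j p q _ _ _ _ _ _ _ => av i j p q,
      grpC := fun i j p q _ _ _ _ _ _ _ => av i j p q }
  · -- cols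
    intro u v _ h
    have hu4 := hcol4 u
    have hv4 := hcol4 v
    have hu : colr (k u) = 0 ∨ colr (k u) = 1 ∨ colr (k u) = 2 ∨ colr (k u) = 3 := by omega
    rcases hu with hu | hu | hu | hu
    · have e := c0 u hu
      have hv : colr (k v) = 1 ∨ colr (k v) = 2 ∨ colr (k v) = 3 ∨ colr (k v) = 4 := by omega
      rcases hv with hv | hv | hv | hv
      · obtain ⟨⟨w, hw, hw'⟩, _⟩ := c1 v hv
        exact lt_of_lt_of_le (e w hw) hw'
      · exact lt_trans (e a hAa) ((c2 v hv).1 a hAa)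
      · obtain ⟨⟨w, hw, hw'⟩, _⟩ := c3 v hv
        exact lt_of_lt_of_le (lt_trans (e a hAa) (hAC a w hAa hw).1) hw'
      · exact lt_trans (lt_trans (e a hAa) hxac) (c4 v hv c hCc)
    · obtain ⟨_, w1, hw1, hw1'⟩ := c1 u hu
      have hv : colr (k v) = 2 ∨ colr (k v) = 3 ∨ colr (k v) = 4 := by omega
      rcases hv with hv | hv | hv
      · exact lt_of_le_of_lt hw1' ((c2 v hv).1 w1 hw1)
      · obtain ⟨⟨w, hw, hw'⟩, _⟩ := c3 v hv
        exact lt_of_lt_of_le (lt_of_le_of_lt hw1' (hAC w1 w hw1 hw).1) hw'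
      · exact lt_trans (lt_of_le_of_lt hw1' (hAC w1 c hw1 hCc).1) (c4 v hv c hCc)
    · obtain ⟨_, e⟩ := c2 u hu
      have hv : colr (k v) = 3 ∨ colr (k v) = 4 := by omega
      rcases hv with hv | hv
      · obtain ⟨⟨w, hw, hw'⟩, _⟩ := c3 v hv
        exact lt_of_lt_of_le (e w hw) hw'
      · exact lt_trans (e c hCc) (c4 v hv c hCc)
    · obtain ⟨_, w1, hw1, hw1'⟩ := c3 u hu
      have hv : colr (k v) = 4 := by omega
      exact lt_of_le_of_lt hw1' (c4 v hv w1 hw1)
  · -- rows
    intro u v _ h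
    have hu4 := hrow4 u
    have hv4 := hrow4 v
    have hu : rowr (k u) = 0 ∨ rowr (k u) = 1 ∨ rowr (k u) = 2 ∨ rowr (k u) = 3 := by omega
    rcases hu with hu | hu | hu | hu
    · have e := r0 u hu
      have hv : rowr (k v) = 1 ∨ rowr (k v) = 2 ∨ rowr (k v) = 3 ∨ rowr (k v) = 4 := by omega
      rcases hv with hv | hv | hv | hv
      · exact e v (r1 v hv)
      · exact lt_trans (e a hAa) ((r2 v hv).1 a hAa)
      · exact lt_trans (e a hAa) (hAC a v hAa (r3 v hv)).2
      · exact lt_trans (lt_trans (e a hAa) hyac) (r4 v hv c hCc)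
    · have e := r1 u hu
      have hv : rowr (k v) = 2 ∨ rowr (k v) = 3 ∨ rowr (k v) = 4 := by omega
      rcases hv with hv | hv | hv
      · exact (r2 v hv).1 u e
      · exact (hAC u v e (r3 v hv)).2
      · exact lt_trans (hAC u c e hCc).2 (r4 v hv c hCc)
    · obtain ⟨_, e⟩ := r2 u hu
      have hv : rowr (k v) = 3 ∨ rowr (k v) = 4 := by omega
      rcases hv with hv | hv
      · exact e v (r3 v hv)
      · exact lt_trans (e c hCc) (r4 v hv c hCc)
    · have e := r3 u hu
      have hv : rowr (k v) = 4 := by omega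
      exact r4 v hv u e
  · -- sepA
    intro u w v hu hw hv _ _ h1 h2
    by_contra hno
    have hne : u ≠ v := by rintro rfl; linarith
    have h3 := lt_of y u v iy hne hno
    obtain ⟨hu1, _⟩ := sAT u hu
    obtain ⟨_, hv2, _⟩ := sAT v hv
    exact av u w v c ⟨h1, h2, lt_trans hv2 hxac, (hAC w c (sA w hw) hCc).2, hu1 c hCc, h3⟩
  · -- sepC
    intro u w v hu hw hv _ _ h1 h2
    by_contra hno
    have hne : u ≠ v := by rintro rfl; linarith
    have h3 := lt_of y u v iy hne hno
    obtain ⟨⟨d, hd, hd'⟩, _⟩ := sCB u hu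
    obtain ⟨_, _, _, hv4⟩ := sCB v hv
    exact av a u w v ⟨lt_trans (hCQ d hd).1 hd', h1, h2, h3, hv4 a hAa, (hCQ w (sC w hw)).2⟩
  · -- z1T
    intro u v hu hv _
    by_contra hno
    have hne : v ≠ u := by rintro rfl; rw [hu] at hv; cases hv
    have h3 := lt_of y v u iy hne hno
    obtain ⟨hu1, hu2, w, hw, hw'⟩ := sAT u hu
    obtain ⟨hv1, hv2⟩ := sLT v hv
    exact av v w u c ⟨hv2 w hw, hw', lt_trans hu2 hxac, (hAC w c hw hCc).2, hv1 c hCc, h3⟩
  · -- z1B
    intro u v hu hv _
    by_contra hno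
    have hne : v ≠ u := by rintro rfl; rw [hu] at hv; cases hv
    have h3 := lt_of y v u iy hne hno
    obtain ⟨hu1, hu2⟩ := sRB u hu
    obtain ⟨⟨d, hd, hd'⟩, ⟨e, he, he'⟩, _, _⟩ := sCB v hv
    exact av a v e u ⟨lt_trans (hCQ d hd).1 hd', he', (hu1 e he).1, h3, hu2 a hAa, (hCQ e he).2⟩
  · -- z2RT
    intro u w v hu hw hv _ _ h1 h2
    by_contra hno
    have hne : v ≠ u := by rintro rfl; linarith
    have h3 := lt_of x v u ix hne hno
    have hw1 : x w < x c := by
      rcases hw with hw | hw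
      · exact lt_trans (sAT w hw).2.1 hxac
      · exact lt_trans ((sLT w hw).2 a hAa) hxac
    exact av w c v u ⟨hw1, (sRT v hv c hCc).1, h3, (sRT u hu c hCc).2, h1, h2⟩
  · -- z2RB
    intro u w v hu hw hv _ _ h1 h2
    by_contra hno
    have hne : u ≠ v := by rintro rfl; linarith
    have h3 := lt_of y u v iy hne hno
    exact av c u w v ⟨((sRB u hu).1 c hCc).1, h1, h2, h3, ((sRB v hv).1 c hCc).2, (sRT w hw c hCc).2⟩
  · -- z2LB
    intro u w v hu hw hv _ _ h1 h2
    by_contra hno
    have hne : v ≠ u := by rintro rfl; linarith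
    have h3 := lt_of x v u ix hne hno
    obtain ⟨d, hd, hd'⟩ : ∃ d, C d ∧ x d < x w := by
      rcases hw with hw | hw
      · exact (sCB w hw).1
      · exact ⟨c, hCc, ((sRB w hw).1 c hCc).1⟩
    exact av v u d w ⟨h3, ((sLB u hu).1 d hd).1, hd', h1, h2, ((sLB v hv).1 d hd).2⟩
  · -- z2LT
    intro u w v hu hw hv _ _ h1 h2
    by_contra hno
    have hne : u ≠ v := by rintro rfl; linarith
    have h3 := lt_of y u v iy hne hno
    exact av u w v a ⟨h1, h2, (sLT v hv).2 a hAa, ((sLB w hw).2 a hAa).2,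
      lt_trans hyac ((sLT u hu).1 c hCc), h3⟩

end

theorem t_D : S_D := by
  intro J _ _ side x y a c ha hc hxac hyac ix iy av
  have key : ∀ b : Bool, ∃ k : {v : J // side v = b} → K, k ⟨a b, ha b⟩ = .A ∧ k ⟨c b, hc b⟩ = .C ∧
      V (fun _ _ => True) k (fun v => x v.1) (fun v => y v.1) := by
    intro b
    refine one (fun v : {v : J // side v = b} => x v.1) (fun v => y v.1) ⟨a b, ha b⟩ ⟨c b, hc b⟩
      (hxac b) (hyac b) ?_ ?_ ?_
    · intro u v h; exact Subtype.ext (ix u.1 v.1 (u.2.trans v.2.symm) h)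
    · intro u v h; exact Subtype.ext (iy u.1 v.1 (u.2.trans v.2.symm) h)
    · intro i j p q h
      exact av i.1 (Finset.mem_univ _) j.1 (Finset.mem_univ _) p.1 (Finset.mem_univ _) q.1
        (Finset.mem_univ _) (i.2.trans j.2.symm) (i.2.trans p.2.symm) (i.2.trans q.2.symm) h
  choose kk hkA hkC hV using key
  have hkk : ∀ (v : J) (b : Bool) (h : side v = b), kk (side v) ⟨v, rfl⟩ = kk b ⟨v, h⟩ := by
    rintro v _ rfl; rfl
  refine ⟨fun v => kk (side v) ⟨v, rfl⟩, ?_, ?_, ?_⟩
  · intro b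
    show kk (side (a b)) ⟨a b, rfl⟩ = _
    rw [hkk (a b) b (ha b)]; exact hkA b
  · intro b
    show kk (side (c b)) ⟨c b, rfl⟩ = _
    rw [hkk (c b) b (hc b)]; exact hkC b
  · constructor
    case cols =>
      intro u v huv h
      rw [hkk v (side u) huv.symm] at h
      exact (hV (side u)).cols ⟨u, rfl⟩ ⟨v, huv.symm⟩ trivial h
    case rows =>
      intro u v huv h
      rw [hkk v (side u) huv.symm] at h
      exact (hV (side u)).rows ⟨u, rfl⟩ ⟨v, huv.symm⟩ trivial h
    case sepA =>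
      intro u w v hu hw hv huw huv
      rw [hkk v (side u) huv.symm] at hv
      rw [hkk w (side u) huw.symm] at hw
      exact (hV (side u)).sepA ⟨u, rfl⟩ ⟨w, huw.symm⟩ ⟨v, huv.symm⟩ hu hw hv trivial trivial
    case sepC =>
      intro u w v hu hw hv huw huv
      rw [hkk v (side u) huv.symm] at hv
      rw [hkk w (side u) huw.symm] at hw
      exact (hV (side u)).sepC ⟨u, rfl⟩ ⟨w, huw.symm⟩ ⟨v, huv.symm⟩ hu hw hv trivial trivial
    case z1T =>
      intro u v hu hv huv
      rw [hkk v (side u) huv.symm] at hv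
      exact (hV (side u)).z1T ⟨u, rfl⟩ ⟨v, huv.symm⟩ hu hv trivial
    case z1B =>
      intro u v hu hv huv
      rw [hkk v (side u) huv.symm] at hv
      exact (hV (side u)).z1B ⟨u, rfl⟩ ⟨v, huv.symm⟩ hu hv trivial
    case z2RT =>
      intro u w v hu hw hv huw huv
      rw [hkk v (side u) huv.symm] at hv
      rw [hkk w (side u) huw.symm] at hw
      exact (hV (side u)).z2RT ⟨u, rfl⟩ ⟨w, huw.symm⟩ ⟨v, huv.symm⟩ hu hw hv trivial trivial
    case z2RB =>
      intro u w v hu hw hv huw huv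
      rw [hkk v (side u) huv.symm] at hv
      rw [hkk w (side u) huw.symm] at hw
      exact (hV (side u)).z2RB ⟨u, rfl⟩ ⟨w, huw.symm⟩ ⟨v, huv.symm⟩ hu hw hv trivial trivial
    case z2LB =>
      intro u w v hu hw hv huw huv
      rw [hkk v (side u) huv.symm] at hv
      rw [hkk w (side u) huw.symm] at hw
      exact (hV (side u)).z2LB ⟨u, rfl⟩ ⟨w, huw.symm⟩ ⟨v, huv.symm⟩ hu hw hv trivial trivial
    case z2LT =>
      intro u w v hu hw hv huw huv
      rw [hkk v (side u) huv.symm] at hv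
      rw [hkk w (side u) huw.symm] at hw
      exact (hV (side u)).z2LT ⟨u, rfl⟩ ⟨w, huw.symm⟩ ⟨v, huv.symm⟩ hu hw hv trivial trivial
    all_goals
      intros
      rename_i i j p q _ _ _ h1 h2 h3
      exact av _ (Finset.mem_univ _) _ (Finset.mem_univ _) _ (Finset.mem_univ _) _
        (Finset.mem_univ _) h1 h2 h3

end Pool.Agent.U261.AM.D
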